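import Mathlib
import Pool.Agent.P.MP_5fda20_pr.G.Main

set_option autoImplicit false

namespace Pool.Agent.Results.MP_5fda20_pr.MstGridLower

open Pool.Agent.P.MP_5fda20_pr SimpleGraph

/-- The random minimum spanning tree of the n by n grid is 2-splittable with probability at least
c / n^6. -/
theorem result : ∃ c : ℝ, 0 < c ∧ ∀ n : ℕ, 4 ≤ n →
    c / (n : ℝ) ^ 6 ≤ pMST (pathGraph n □ pathGraph n) :=
  ⟨1 / 10 ^ 16, by positivity, fun _ => G.main⟩

end Pool.Agent.Results.MP_5fda20_pr.MstGridLower
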