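import Mathlib
import Pool.Agent.P.MP_5fda20_pr.O.Main

set_option autoImplicit false

namespace Pool.Agent.Results.MP_5fda20_pr.MstOrder

open Pool.Agent.P.MP_5fda20_pr

/-- The probability that the random minimum spanning tree of the complete graph on n vertices is
2-splittable has order exactly n^(-2/3). -/
theorem result : Asymptotics.IsTheta Filter.atTop
    (fun n : ℕ => pMST (⊤ : SimpleGraph (Fin n))) (fun n : ℕ => (n : ℝ) ^ (-2 / 3 : ℝ)) := by
  obtain ⟨c, c0, h⟩ := main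
  obtain ⟨C, h'⟩ := O.upper_order
  have p0 : ∀ n : ℕ, 0 ≤ pMST (⊤ : SimpleGraph (Fin n)) := fun _ => MeasureTheory.measureReal_nonneg
  have q0 : ∀ n : ℕ, 0 ≤ (n : ℝ) ^ (-2 / 3 : ℝ) := fun n => Real.rpow_nonneg n.cast_nonneg _
  refine ⟨Asymptotics.IsBigO.of_bound C (h'.mono fun n h => ?_),
    Asymptotics.IsBigO.of_bound c⁻¹ (h.mono fun n h => ?_)⟩ <;>
    rw [Real.norm_of_nonneg (p0 n), Real.norm_of_nonneg (q0 n)]
  · exact h
  · exact (le_inv_mul_iff₀ c0).2 h.1

end Pool.Agent.Results.MP_5fda20_pr.MstOrder
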