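import Mathlib
import Pool.Agent.P.MP_5fda20_pr.W.Fin

set_option autoImplicit false

namespace Pool.Agent.Results.MP_5fda20_pr.UstExponent

open Pool.Agent.P.MP_5fda20_pr SimpleGraph

/-- The uniform spanning tree of the n by n grid is 2-splittable with probability
n^(-3/4+o(1)). -/
theorem result : ∀ ε : ℝ, 0 < ε → ∀ᶠ n : ℕ in Filter.atTop,
    (n : ℝ) ^ (-(3 / 4 + ε)) ≤ pUST (pathGraph n □ pathGraph n) ∧
      pUST (pathGraph n □ pathGraph n) ≤ (n : ℝ) ^ (-(3 / 4 - ε)) :=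
  fun _ hε => (U.ust_lower hε).and (W.ust_upper hε)

end Pool.Agent.Results.MP_5fda20_pr.UstExponent
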